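import Mathlib
import Pool.Agent.Cayley.Defs
import Pool.Agent.Cayley.Final

/-!
# Unboundedness of Cayley degrees

The answer to Q1 and Q2 is yes: the Cayley degrees of the simple groups `SL_n` are unbounded.
-/

set_option autoImplicit false

namespace Pool.Agent.Results.MP_6271a1_ag.Unbounded

open Pool.Agent.Cayley.Stmt

universe u

/-- Over an algebraically closed field of characteristic zero, the Cayley degree of the group
`SL_{p ^ 2}` is at least `p`, for every prime number `p`: every dominant equivariant rational map
from `SL_{p ^ 2}` to its Lie algebra has degree at least `p`. -/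
theorem result {k : Type u} [Field k] [IsAlgClosed k] [CharZero k] (p : ℕ) (hp : p.Prime) :
    (p : Cardinal.{u}) ≤ cayleyDegree k (p ^ 2) :=
  le_cayleyDegree hp

end Pool.Agent.Results.MP_6271a1_ag.Unbounded
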